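import Pool.Agent.Helper93.KP.St

/-!
# Project KP (MP_77e955_nt): module OFA, expansion of two fundamental lemma weights
-/

set_option autoImplicit false

noncomputable section

namespace Pool.Agent.Helper4.KP

open Finset Filter Topology
open Pool.Agent.Helper93.KP
open Pool.Agent.Helper15.AB (ee Kl StDB StMT)
open Pool.Agent.Helper9.TW (iv bx Rg cc Dec WF bm ms ind UpP LoP gm Ax GUp GLo Qs fm ej)
open Pool.Agent.Helper18.TR (fam0 fam1 StLevel)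

private theorem fam0_sub (w b : ℕ) (Q : Finset ℕ) : fam0 w b Q ⊆ Q.powerset := by
  intro T hT
  simp only [fam0, Finset.mem_filter] at hT
  exact hT.1

private theorem fam1_sub (w b : ℕ) (Q : Finset ℕ) : fam1 w b Q ⊆ Q.powerset := by
  intro T hT
  simp only [fam1, Finset.mem_filter] at hT
  exact hT.1

private theorem fm_sub (i a : ℕ) (θ : ℝ) (u : ℕ) : fm i a θ u ⊆ (Qs a θ).powerset := by
  unfold fm
  split_ifs
  · exact fam0_sub _ _ _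
  · exact Finset.union_subset (fam0_sub _ _ _) (fam1_sub _ _ _)

private theorem fm_sub' (i a : ℕ) (θ : ℝ) (u : ℕ) :
    fm i a θ u ⊆ fam0 ⌊(a : ℝ) ^ θ⌋₊ u (Qs a θ) ∪ fam1 ⌊(a : ℝ) ^ θ⌋₊ u (Qs a θ) := by
  unfold fm
  split_ifs
  · exact Finset.subset_union_left
  · exact Finset.Subset.refl _

private theorem Qs_mem {a : ℕ} {θ : ℝ} {p : ℕ} (hp : p ∈ Qs a θ) :
    p.Prime ∧ 7 ≤ p ∧ p ≤ ⌊(a : ℝ) ^ θ⌋₊ ∧ (p : ℝ) < (a : ℝ) ^ θ := by
  unfold Qs at hp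
  rw [mem_filter, mem_Icc] at hp
  exact ⟨hp.2.1, hp.1.1, hp.1.2, hp.2.2⟩

/-- the number of index sets -/
private theorem fm_card {i a : ℕ} {θ : ℝ} {u W : ℕ} (hW : ∀ T ∈ fm i a θ u, ∏ p ∈ T, p ≤ W) :
    (fm i a θ u).card ≤ W := by
  have h1 : (fm i a θ u).card ≤ (Icc 1 W).card := by
    refine Finset.card_le_card_of_injOn (fun T => ∏ p ∈ T, p) ?_ ?_
    · intro T hT
      have hT' : T ∈ fm i a θ u := by exact_mod_cast hT
      have h2 : 0 < ∏ p ∈ T, p := Finset.prod_pos fun p hp =>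
        (Qs_mem (mem_powerset.1 (fm_sub i a θ u hT') hp)).1.pos
      rw [Finset.mem_coe, mem_Icc]
      exact ⟨h2, hW T hT'⟩
    · intro T hT S hS hTS
      have hT' : T ∈ fm i a θ u := by exact_mod_cast hT
      have hS' : S ∈ fm i a θ u := by exact_mod_cast hS
      have h3 := Nat.primeFactors_prod (s := T) fun p hp =>
        (Qs_mem (mem_powerset.1 (fm_sub i a θ u hT') hp)).1
      have h4 := Nat.primeFactors_prod (s := S) fun p hp =>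
        (Qs_mem (mem_powerset.1 (fm_sub i a θ u hS') hp)).1
      simp only at hTS
      rw [← h3, ← h4, hTS]
  simpa using h1

/-- the product of indicator functions -/
private theorem prod_ind (D : Finset ℕ) (n k : ℕ) :
    ∏ p ∈ D, (if (p : ℤ) ∣ gk n k then (1 : ℝ) else 0) =
      if ∀ p ∈ D, (p : ℤ) ∣ gk n k then (1 : ℝ) else 0 := by
  classical
  by_cases h : ∀ p ∈ D, (p : ℤ) ∣ gk n k
  · rw [if_pos h, Finset.prod_congr rfl (fun p hp => if_pos (h p hp))]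
    simp
  · rw [if_neg h]
    push Not at h
    obtain ⟨p, hp, hpF⟩ := h
    exact Finset.prod_eq_zero hp (if_neg hpF)

open Classical in
/-- expansion of the two weights -/
private theorem tk_sum (i a k k' : ℕ) (θ : ℝ) (u : ℕ) (G : ℕ → ℝ) :
    ∑ n ∈ NN a, tk i a θ u n k * tk i a θ u n k' * G n =
      ∑ D ∈ fm i a θ u, ∑ D' ∈ fm i a θ u, (-1 : ℝ) ^ (D.card + D'.card) *
        ∑ n ∈ (NN a).filter (fun n : ℕ => (∀ p ∈ D, (p : ℤ) ∣ gk n k) ∧ (∀ p ∈ D', (p : ℤ) ∣ gk n k')),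
          G n := by
  have h1 : ∀ n : ℕ, tk i a θ u n k * tk i a θ u n k' * G n =
      ∑ D ∈ fm i a θ u, ∑ D' ∈ fm i a θ u, (-1 : ℝ) ^ (D.card + D'.card) *
        (if (∀ p ∈ D, (p : ℤ) ∣ gk n k) ∧ (∀ p ∈ D', (p : ℤ) ∣ gk n k') then G n else 0) := by
    intro n
    unfold tk
    rw [Finset.sum_mul_sum, Finset.sum_mul]
    refine Finset.sum_congr rfl fun D _ => ?_
    rw [Finset.sum_mul]
    refine Finset.sum_congr rfl fun D' _ => ?_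
    have e1 := prod_ind D n k
    have e2 := prod_ind D' n k'
    have e3 : ∏ p ∈ D, (if (p : ℤ) ∣ gk n k then (1 : ℝ) else 0) =
      if ∀ p ∈ D, (p : ℤ) ∣ gk n k then (1 : ℝ) else 0 := by
      rw [← e1]
    have e4 : ∏ p ∈ D', (if (p : ℤ) ∣ gk n k' then (1 : ℝ) else 0) =
      if ∀ p ∈ D', (p : ℤ) ∣ gk n k' then (1 : ℝ) else 0 := by
      rw [← e2]
    rw [e3, e4, pow_add]
    by_cases hA : ∀ p ∈ D, (p : ℤ) ∣ gk n k
    · by_cases hB : ∀ p ∈ D', (p : ℤ) ∣ gk n k'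
      · rw [if_pos hA, if_pos hB, if_pos ⟨hA, hB⟩]; ring
      · have hn : ¬ ((∀ p ∈ D, (p : ℤ) ∣ gk n k) ∧ (∀ p ∈ D', (p : ℤ) ∣ gk n k')) := fun h => hB h.2
        rw [if_neg hB, if_neg hn]; ring
    · have hn : ¬ ((∀ p ∈ D, (p : ℤ) ∣ gk n k) ∧ (∀ p ∈ D', (p : ℤ) ∣ gk n k')) := fun h => hA h.1
      rw [if_neg hA, if_neg hn]; ring
  simp only [h1]
  rw [Finset.sum_comm]
  refine Finset.sum_congr rfl fun D _ => ?_
  rw [Finset.sum_comm]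
  refine Finset.sum_congr rfl fun D' _ => ?_
  rw [← Finset.mul_sum, Finset.sum_filter]

private theorem ofa_main (hC : StCLS) {i a k k' u W0 : ℕ} {θ : ℝ}
    (hlev : ∀ T ∈ fm i a θ u, ∏ p ∈ T, p ≤ W0) (G : ℕ → ℝ) (X Y R : ℝ) (hR : 0 ≤ R)
    (H : ∀ d ν : ℕ, 1 ≤ d → ν < d → d ≤ W0 * W0 → (∀ p : ℕ, p.Prime → p ∣ d → (p : ℝ) < (a : ℝ) ^ θ) →
      |∑ n ∈ (NN a).filter (fun n => n % d = ν), G n - X / d * Y| ≤ R) :
    |∑ n ∈ NN a, tk i a θ u n k * tk i a θ u n k' * G n - X * GG i a θ u k k' * Y| ≤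
      (W0 : ℝ) * W0 * R := by
  classical
  rw [tk_sum]
  have e1 : X * GG i a θ u k k' * Y = ∑ D ∈ fm i a θ u, ∑ D' ∈ fm i a θ u,
      (-1 : ℝ) ^ (D.card + D'.card) * (X *
        (if ∃ n : ℕ, (∀ p ∈ D, (p : ℤ) ∣ gk n k) ∧ (∀ p ∈ D', (p : ℤ) ∣ gk n k') then
          1 / ((∏ p ∈ D ∪ D', p : ℕ) : ℝ) else 0) * Y) := by
    unfold GG
    rw [Finset.mul_sum, Finset.sum_mul]
    refine Finset.sum_congr rfl fun D _ => ?_
    rw [Finset.mul_sum, Finset.sum_mul]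
    refine Finset.sum_congr rfl fun D' _ => ?_
    have : ∀ s t : ℝ, X * (s * t) * Y = s * (X * t * Y) := fun s t => by ring
    rw [this]
  rw [e1, ← Finset.sum_sub_distrib]
  have hone : ∀ D ∈ fm i a θ u, ∀ D' ∈ fm i a θ u,
      |(-1 : ℝ) ^ (D.card + D'.card) *
        ∑ n ∈ (NN a).filter (fun n : ℕ => (∀ p ∈ D, (p : ℤ) ∣ gk n k) ∧ (∀ p ∈ D', (p : ℤ) ∣ gk n k')),
          G n - (-1 : ℝ) ^ (D.card + D'.card) * (X *
        (if ∃ n : ℕ, (∀ p ∈ D, (p : ℤ) ∣ gk n k) ∧ (∀ p ∈ D', (p : ℤ) ∣ gk n k') then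
          1 / ((∏ p ∈ D ∪ D', p : ℕ) : ℝ) else 0) * Y)| ≤ R := by
    intro D hD D' hD'
    have hDQ : D ⊆ Qs a θ := mem_powerset.1 (fm_sub i a θ u hD)
    have hDQ' : D' ⊆ Qs a θ := mem_powerset.1 (fm_sub i a θ u hD')
    have hU : ∀ p ∈ D ∪ D', p ∈ Qs a θ := fun p hp => by
      rcases Finset.mem_union.1 hp with h | h
      · exact hDQ h
      · exact hDQ' h
    rw [← mul_sub, abs_mul, abs_pow, abs_neg, abs_one, one_pow, one_mul]
    rcases hC D D' k k' (fun p hp => (Qs_mem (hU p hp)).1) with h0 | ⟨ν, hν, hiff⟩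
    · rw [Finset.filter_false_of_mem (fun n _ => h0 n), Finset.sum_empty,
        if_neg (fun h => by obtain ⟨n, hn⟩ := h; exact h0 n hn)]
      simpa using hR
    · have hd1 : 1 ≤ ∏ p ∈ D ∪ D', p := Nat.succ_le_of_lt (lt_of_le_of_lt (Nat.zero_le _) hν)
      have hex : ∃ n : ℕ, (∀ p ∈ D, (p : ℤ) ∣ gk n k) ∧ (∀ p ∈ D', (p : ℤ) ∣ gk n k') :=
        ⟨ν, (hiff ν).2 (Nat.mod_eq_of_lt hν)⟩
      rw [if_pos hex, Finset.filter_congr (fun n _ => hiff n)]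
      have hdW : ∏ p ∈ D ∪ D', p ≤ W0 * W0 := by
        have h1 := Finset.prod_union_inter (s₁ := D) (s₂ := D') (f := fun p : ℕ => p)
        have h2 : 1 ≤ ∏ p ∈ D ∩ D', p := Finset.one_le_prod' fun p hp =>
          (Qs_mem (hDQ (Finset.mem_inter.1 hp).1)).1.one_lt.le
        calc ∏ p ∈ D ∪ D', p ≤ (∏ p ∈ D ∪ D', p) * ∏ p ∈ D ∩ D', p := Nat.le_mul_of_pos_right _ h2
          _ = (∏ p ∈ D, p) * ∏ p ∈ D', p := h1
          _ ≤ W0 * W0 := Nat.mul_le_mul (hlev D hD) (hlev D' hD')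
      have h3 := H (∏ p ∈ D ∪ D', p) ν hd1 hν hdW (fun p hp hpd => by
        obtain ⟨q, hq, hpq⟩ := (Prime.dvd_finsetProd_iff hp.prime _).1 hpd
        rw [(Nat.prime_dvd_prime_iff_eq hp (Qs_mem (hU q hq)).1).1 hpq]
        exact (Qs_mem (hU q hq)).2.2.2)
      have h4 : X * (1 / ((∏ p ∈ D ∪ D', p : ℕ) : ℝ)) * Y = X / ((∏ p ∈ D ∪ D', p : ℕ) : ℝ) * Y := by
        ring
      rw [h4]
      exact h3
  refine le_trans (Finset.abs_sum_le_sum_abs _ _) ?_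
  have hcard : ((fm i a θ u).card : ℝ) ≤ W0 := by exact_mod_cast fm_card hlev
  have hin : ∀ D ∈ fm i a θ u, |∑ D' ∈ fm i a θ u, (-1 : ℝ) ^ (D.card + D'.card) *
        ∑ n ∈ (NN a).filter (fun n : ℕ => (∀ p ∈ D, (p : ℤ) ∣ gk n k) ∧ (∀ p ∈ D', (p : ℤ) ∣ gk n k')),
          G n - ∑ D' ∈ fm i a θ u, (-1 : ℝ) ^ (D.card + D'.card) * (X *
        (if ∃ n : ℕ, (∀ p ∈ D, (p : ℤ) ∣ gk n k) ∧ (∀ p ∈ D', (p : ℤ) ∣ gk n k') then
          1 / ((∏ p ∈ D ∪ D', p : ℕ) : ℝ) else 0) * Y)| ≤ W0 * R := by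
    intro D hD
    rw [← Finset.sum_sub_distrib]
    refine le_trans (Finset.abs_sum_le_sum_abs _ _) ?_
    refine le_trans (Finset.sum_le_card_nsmul _ _ _ (hone D hD)) ?_
    rw [nsmul_eq_mul]
    exact mul_le_mul_of_nonneg_right hcard hR
  refine le_trans (Finset.sum_le_card_nsmul _ _ _ hin) ?_
  rw [nsmul_eq_mul, mul_assoc]
  exact mul_le_mul_of_nonneg_right hcard (by positivity)

theorem hOFA (hE : StEXP) (hC : StCLS) (hS : StSGL) (hLv : StLevel) : StOFA := by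
  intro δ u hδ hδ1
  obtain ⟨C, hC0, HE⟩ := hE δ hδ hδ1
  obtain ⟨B₀, hB₀⟩ := hLv u
  refine ⟨δ / (1000 * (B₀ + 1)), by positivity, ?_, fun θ hθ hθ1 => ?_⟩
  · rw [div_le_iff₀ (by positivity)]
    have : (0 : ℝ) ≤ B₀ := Nat.cast_nonneg _
    nlinarith
  have hθB : θ * B₀ ≤ δ / 1000 := by
    rw [le_div_iff₀ (by positivity)] at hθ1
    have : 0 ≤ θ := hθ.le
    nlinarith
  refine ⟨C + 1, by positivity, fun i a k k' T B al be ha hk hk' hkk hka hka' hsup => ?_⟩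
  have haR : (1 : ℝ) ≤ a := by
    have : (2 : ℝ) ≤ a := by exact_mod_cast ha
    linarith
  have ha0 : (0 : ℝ) < a := by linarith
  obtain ⟨w, hw⟩ : ∃ w : ℕ, w = ⌊(a : ℝ) ^ θ⌋₊ := ⟨_, rfl⟩
  have hw1 : 1 ≤ w := by
    rw [hw]
    refine Nat.le_floor ?_
    push_cast
    exact Real.one_le_rpow haR hθ.le
  have hwR : (w : ℝ) ≤ (a : ℝ) ^ θ := by
    rw [hw]
    exact Nat.floor_le (by positivity)
  have hwB : ((w ^ B₀ : ℕ) : ℝ) ≤ (a : ℝ) ^ (δ / 1000) := by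
    push_cast
    calc (w : ℝ) ^ B₀ ≤ ((a : ℝ) ^ θ) ^ B₀ := pow_le_pow_left₀ (by positivity) hwR _
      _ = (a : ℝ) ^ (θ * B₀) := by rw [← Real.rpow_natCast, ← Real.rpow_mul ha0.le]
      _ ≤ _ := Real.rpow_le_rpow_of_exponent_le haR hθB
  have hWW : ((w ^ B₀ : ℕ) : ℝ) * ((w ^ B₀ : ℕ) : ℝ) ≤ (a : ℝ) ^ (δ / 500) := by
    calc ((w ^ B₀ : ℕ) : ℝ) * ((w ^ B₀ : ℕ) : ℝ) ≤ (a : ℝ) ^ (δ / 1000) * (a : ℝ) ^ (δ / 1000) :=
          mul_le_mul hwB hwB (by positivity) (by positivity)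
      _ = (a : ℝ) ^ (δ / 500) := by
          rw [← Real.rpow_add ha0]
          congr 1
          ring
  have hlev : ∀ T ∈ fm i a θ u, ∏ p ∈ T, p ≤ w ^ B₀ := by
    intro T hT
    refine hB₀ w hw1 (Qs a θ) (fun p hp => ?_) T (by rw [hw]; exact fm_sub' i a θ u hT)
    obtain ⟨hp1, _, hp3, _⟩ := Qs_mem hp
    exact ⟨hp1, by rw [hw]; exact hp3⟩
  have hdle : ∀ d : ℕ, d ≤ w ^ B₀ * w ^ B₀ → (d : ℝ) ≤ (a : ℝ) ^ (δ / 100) := by
    intro d hd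
    have h1 : (d : ℝ) ≤ ((w ^ B₀ : ℕ) : ℝ) * ((w ^ B₀ : ℕ) : ℝ) := by exact_mod_cast hd
    exact h1.trans (hWW.trans (Real.rpow_le_rpow_of_exponent_le haR (by linarith)))
  have hkk' : k' ≠ k := fun h => hkk h.symm
  have hkA : k ≤ a := by
    have h1 : (k : ℝ) ≤ (a : ℝ) ^ (1 : ℝ) :=
      hka.trans (Real.rpow_le_rpow_of_exponent_le haR (by linarith))
    rw [Real.rpow_one] at h1
    exact_mod_cast h1
  have hB2 : 0 ≤ B ^ 2 := sq_nonneg B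
  have hB4 : 0 ≤ B ^ 4 := by positivity
  have fin12 : ∀ x : ℝ, 0 ≤ x →
      ((w ^ B₀ : ℕ) : ℝ) * ((w ^ B₀ : ℕ) : ℝ) * (x * (a : ℝ) ^ (11 / 10 : ℝ)) ≤
        x * (a : ℝ) ^ (12 / 10 : ℝ) := by
    intro x hx
    have h1 : ((w ^ B₀ : ℕ) : ℝ) * ((w ^ B₀ : ℕ) : ℝ) * (x * (a : ℝ) ^ (11 / 10 : ℝ)) ≤
        (a : ℝ) ^ (δ / 500) * (x * (a : ℝ) ^ (11 / 10 : ℝ)) :=
      mul_le_mul_of_nonneg_right hWW (by positivity)
    refine h1.trans ?_
    have h2 : (a : ℝ) ^ (δ / 500) * (x * (a : ℝ) ^ (11 / 10 : ℝ)) =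
        x * (a : ℝ) ^ (δ / 500 + 11 / 10) := by
      rw [Real.rpow_add ha0]; ring
    rw [h2]
    exact mul_le_mul_of_nonneg_left (Real.rpow_le_rpow_of_exponent_le haR (by linarith)) hx
  have hT0 : (0 : ℝ) ≤ T := Nat.cast_nonneg _
  refine ⟨?_, ?_, ?_, ?_⟩
  · have h1 := ofa_main (k := k) (k' := k') hC hlev
      (fun n => PC T ((a : ℝ) ^ (1 - δ)) ((a : ℝ) ^ (1 / 10 - δ)) al be k k' n) (3 * (a : ℝ) ^ 2)
      (MC T ((a : ℝ) ^ (1 - δ)) ((a : ℝ) ^ (1 / 10 - δ)) al be k k')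
      (C * (T : ℝ) ^ 2 * B ^ 4 * (a : ℝ) ^ (2 - δ / 20)) (by positivity)
      (fun d ν hd hν hdW hp => (HE a d ν k k' T θ B al be ha hd hν hk hk' hkk hka hka'
        (hdle d hdW) hp hsup).1)
    refine h1.trans ?_
    have h2 : ((w ^ B₀ : ℕ) : ℝ) * ((w ^ B₀ : ℕ) : ℝ) *
        (C * (T : ℝ) ^ 2 * B ^ 4 * (a : ℝ) ^ (2 - δ / 20)) ≤
        (a : ℝ) ^ (δ / 500) * (C * (T : ℝ) ^ 2 * B ^ 4 * (a : ℝ) ^ (2 - δ / 20)) :=
      mul_le_mul_of_nonneg_right hWW (by positivity)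
    refine h2.trans ?_
    have h3 : (a : ℝ) ^ (δ / 500) * (C * (T : ℝ) ^ 2 * B ^ 4 * (a : ℝ) ^ (2 - δ / 20)) =
        C * (T : ℝ) ^ 2 * B ^ 4 * (a : ℝ) ^ (δ / 500 + (2 - δ / 20)) := by
      rw [Real.rpow_add ha0]; ring
    rw [h3]
    refine mul_le_mul ?_ (Real.rpow_le_rpow_of_exponent_le haR (by linarith)) (by positivity)
      (by positivity)
    refine mul_le_mul_of_nonneg_right ?_ hB4
    exact mul_le_mul_of_nonneg_right (by linarith) (by positivity)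
  · have h1 := ofa_main (k := k) (k' := k') hC hlev
      (fun n => PP T ((a : ℝ) ^ (1 - δ)) ((a : ℝ) ^ (1 / 10 - δ)) al be (vk n k)) (3 * (a : ℝ) ^ 2)
      (MK T ((a : ℝ) ^ (1 - δ)) ((a : ℝ) ^ (1 / 10 - δ)) al be k)
      (T * B ^ 2 * (a : ℝ) ^ (11 / 10 : ℝ)) (by positivity)
      (fun d ν hd hν hdW hp => (HE a d ν k k' T θ B al be ha hd hν hk hk' hkk hka hka'
        (hdle d hdW) hp hsup).2)
    refine h1.trans ((fin12 _ (by positivity)).trans ?_)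
    refine mul_le_mul_of_nonneg_right ?_ (by positivity)
    nlinarith [mul_nonneg hT0 hB2]
  · have h1 := ofa_main (k := k) (k' := k') hC hlev
      (fun n => PP T ((a : ℝ) ^ (1 - δ)) ((a : ℝ) ^ (1 / 10 - δ)) al be (vk n k')) (3 * (a : ℝ) ^ 2)
      (MK T ((a : ℝ) ^ (1 - δ)) ((a : ℝ) ^ (1 / 10 - δ)) al be k')
      (T * B ^ 2 * (a : ℝ) ^ (11 / 10 : ℝ)) (by positivity)
      (fun d ν hd hν hdW hp => (HE a d ν k' k T θ B al be ha hd hν hk' hk hkk' hka' hka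
        (hdle d hdW) hp hsup).2)
    refine h1.trans ((fin12 _ (by positivity)).trans ?_)
    refine mul_le_mul_of_nonneg_right ?_ (by positivity)
    nlinarith [mul_nonneg hT0 hB2]
  · have h1 := ofa_main (k := k) (k' := k') hC hlev
      (fun _ => (1 : ℝ)) (3 * (a : ℝ) ^ 2) 1 1 (by positivity)
      (fun d ν hd hν hdW hp => by
        have h2 := (hS a d ν k 1 ha hd hν hk hkA le_rfl).1
        simpa using h2)
    simp only [mul_one] at h1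
    refine h1.trans (hWW.trans ?_)
    have h2 : (a : ℝ) ^ (δ / 500) ≤ (a : ℝ) ^ (1 : ℝ) :=
      Real.rpow_le_rpow_of_exponent_le haR (by linarith)
    rw [Real.rpow_one] at h2
    refine h2.trans ?_
    nlinarith

end Pool.Agent.Helper4.KP
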